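import Pool.Agent.MHP.StmtsT

/-!
# Squad MHP (MP_09e7c7_co), row TGA: the toggle formula
-/

set_option autoImplicit false

open scoped Classical

namespace Pool.Agent.MHP.H52

open Pool.Agent.HMT Pool.Agent.MHP

theorem setoid_finite (α : Type) [Finite α] : Finite (Setoid α) := by
  refine Finite.of_injective (fun π : Setoid α => π.r) ?_
  intro π ρ h
  apply Setoid.ext
  intro a b
  exact iff_of_eq (congrFun (congrFun h a) b)

/-- the indicator of a partition -/
noncomputable def ind (P : GProp) {Y : Type} [Finite Y] (G : SimpleGraph Y) (π : Setoid Y) : ℤ :=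
  if ∀ p, P.mem (G.induce {q | π.r q p}) then (1 : ℤ) else 0

theorem hc_eq (P : GProp) {Y : Type} [Finite Y] [Fintype (Setoid Y)] (G : SimpleGraph Y) (i : ℕ) :
    (hc P G i : ℤ) =
      ∑ π ∈ Finset.univ.filter (fun π : Setoid Y => Nat.card (Quotient π) = i), ind P G π := by
  unfold hc ind
  rw [← Finset.sum_filter]
  rw [Finset.filter_filter, Finset.sum_const, nsmul_eq_mul, mul_one, Nat.card_eq_fintype_card,
    Fintype.card_subtype]

theorem tog_sum {V : Type} [Finite V] {ι : Type} (C : SimpleGraph V) (T : Finset ι)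
    (F : ι → SimpleGraph V → ℤ) :
    tog C (fun Z => ∑ π ∈ T, F π Z) = ∑ π ∈ T, tog C (F π) := by
  unfold tog
  simp only [Finset.smul_sum]
  rw [Finset.sum_comm]

theorem tog_zero {V : Type} [Finite V] (C : SimpleGraph V) :
    tog C (fun _ => (0 : ℤ)) = 0 := by
  unfold tog
  simp

theorem tga (ext : ExtStmt) (blk : BlkStmt) (cut : CutStmt) : TgaStmt := by
  intro P V W _ _ X x C r i s hC hs
  have fY := setoid_finite (W ⊕ {v : V // v ≠ r})
  have fW := setoid_finite W
  let _ := Fintype.ofFinite (Setoid (W ⊕ {v : V // v ≠ r}))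
  let _ := Fintype.ofFinite (Setoid W)
  let T : Finset (Setoid (W ⊕ {v : V // v ≠ r})) :=
    Finset.univ.filter (fun π => Nat.card (Quotient π) = i)
  let good : Setoid (W ⊕ {v : V // v ≠ r}) → Prop :=
    fun π => ∀ a b, C.Adj a b → π.r (emb r x a) (emb r x b)
  have h1 : tog C (fun Z => (hc P (glue X x Z r) i : ℤ)) =
      ∑ π ∈ T, tog C (fun Z => ind P (glue X x Z r) π) := by
    rw [← tog_sum]
    congr 1
    funext Z
    exact hc_eq P (glue X x Z r) i
  have h2 : ∑ π ∈ T, tog C (fun Z => ind P (glue X x Z r) π) =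
      ∑ π ∈ T.filter good, tog C (fun Z => ind P (glue X x Z r) π) := by
    symm
    apply Finset.sum_subset (Finset.filter_subset _ _)
    intro π hπ hnot
    have hng : ¬ good π := fun hg => hnot (Finset.mem_filter.mpr ⟨hπ, hg⟩)
    simp only [good, not_forall] at hng
    obtain ⟨a, b, hab, hr⟩ := hng
    exact cut P V W X x C r π a b hab hr
  have hcomap : ∀ π₀ : Setoid W, (π₀.comap (ret r x)).comap Sum.inl = π₀ := by
    intro π₀
    apply Setoid.ext
    intro a b
    exact Iff.rfl
  have h3 : ∑ π ∈ T.filter good, tog C (fun Z => ind P (glue X x Z r) π) =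
      ∑ π₀ ∈ Finset.univ.filter (fun π₀ : Setoid W => Nat.card (Quotient π₀) = i),
        tog C (fun Z => ind P (glue X x Z r) (π₀.comap (ret r x))) := by
    symm
    refine Finset.sum_bij (fun π₀ _ => π₀.comap (ret r x)) ?_ ?_ ?_ ?_
    · intro π₀ h0
      rw [Finset.mem_filter] at h0
      refine Finset.mem_filter.mpr ⟨Finset.mem_filter.mpr ⟨Finset.mem_univ _, ?_⟩, ?_⟩
      · rw [ext.2 V W r x π₀]
        exact h0.2
      · intro a b _
        change π₀.r (ret r x (emb r x a)) (ret r x (emb r x b))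
        rw [ret_emb, ret_emb]
    · intro π₀ _ π₁ _ heq
      have := congrArg (fun π : Setoid (W ⊕ {v : V // v ≠ r}) => π.comap Sum.inl) heq
      simp only [hcomap] at this
      exact this
    · intro π hπ
      rw [Finset.mem_filter] at hπ
      have hT : Nat.card (Quotient π) = i := (Finset.mem_filter.mp hπ.1).2
      have e1 := ext.1 V W C r x π hC hπ.2
      refine ⟨π.comap Sum.inl, Finset.mem_filter.mpr ⟨Finset.mem_univ _, ?_⟩, e1.symm⟩
      rw [← ext.2 V W r x (π.comap Sum.inl), ← e1]
      exact hT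
    · intro π₀ _
      rfl
  have h4 : ∀ π₀ : Setoid W, tog C (fun Z => ind P (glue X x Z r) (π₀.comap (ret r x))) =
      if (∀ v, ¬ π₀.r v x → P.mem (X.induce {w | π₀.r w v})) then
        tog C (fun Z => mu P (glue (X.induce {w | π₀.r w x}) ⟨x, π₀.refl' x⟩ Z r)) else 0 := by
    intro π₀
    by_cases hA : ∀ v, ¬ π₀.r v x → P.mem (X.induce {w | π₀.r w v})
    · rw [if_pos hA]
      congr 1
      funext Z
      have hb := blk P V W X x Z r π₀
      unfold ind mu
      by_cases hB : P.mem (glue (X.induce {w | π₀.r w x}) ⟨x, π₀.refl' x⟩ Z r)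
      · rw [if_pos hB, if_pos (hb.mpr ⟨hA, hB⟩)]
      · rw [if_neg hB, if_neg (fun h => hB (hb.mp h).2)]
    · rw [if_neg hA, ← tog_zero C]
      congr 1
      funext Z
      have hb := blk P V W X x Z r π₀
      unfold ind
      rw [if_neg (fun h => hA (hb.mp h).1)]
  rw [h1, h2, h3]
  simp only [h4]
  rw [← Finset.sum_filter, Finset.filter_filter]
  apply Finset.sum_congr
  · ext π
    rw [Finset.mem_filter, hs]
    exact ⟨fun h => h.2, fun h => ⟨Finset.mem_univ _, h⟩⟩
  · intro π _
    rfl

end Pool.Agent.MHP.H52
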